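import Pool.Agent.Helper3_PPX.Stmts

/-!
# Squad PPX, module NVA: an irreducible polynomial which vanishes for `x = α`
-/

set_option autoImplicit false

universe u

open MvPolynomial

namespace Pool.Agent.PPX.H11

theorem dvd_sub {k : Type u} [Field k] (α : k) (R : P4 k) :
    (X 0 - C α : P4 k) ∣ R - aeval ![C α, X 1, X 2, X 3] R := by
  induction R using MvPolynomial.induction_on with
  | C c =>
    rw [← algebraMap_eq, AlgHom.commutes, sub_self]
    exact dvd_zero _
  | add p q hp hq =>
    rw [map_add]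
    have h1 : p + q - (aeval ![C α, X 1, X 2, X 3] p + aeval ![C α, X 1, X 2, X 3] q) =
        (p - aeval ![C α, X 1, X 2, X 3] p) + (q - aeval ![C α, X 1, X 2, X 3] q) := by ring
    rw [h1]
    exact dvd_add hp hq
  | mul_X p i hp =>
    rw [map_mul, aeval_X]
    have h1 : p * X i - aeval ![C α, X 1, X 2, X 3] p * (![C α, X 1, X 2, X 3] : Fin 4 → P4 k) i =
        (p - aeval ![C α, X 1, X 2, X 3] p) * X i +
          aeval ![C α, X 1, X 2, X 3] p * (X i - (![C α, X 1, X 2, X 3] : Fin 4 → P4 k) i) := by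
      ring
    rw [h1]
    refine dvd_add (hp.mul_right _) (Dvd.dvd.mul_left ?_ _)
    fin_cases i
    · exact dvd_refl _
    · show (X 0 - C α : P4 k) ∣ X 1 - X 1
      rw [sub_self]; exact dvd_zero _
    · show (X 0 - C α : P4 k) ∣ X 2 - X 2
      rw [sub_self]; exact dvd_zero _
    · show (X 0 - C α : P4 k) ∣ X 3 - X 3
      rw [sub_self]; exact dvd_zero _

/-- NVA. -/
theorem nva : NvaStmt.{u} := by
  intro k _ α R hR h
  have h1 := dvd_sub α R
  rw [h, sub_zero] at h1
  rcases hR.dvd_iff.1 h1 with h2 | h2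
  · exfalso
    have h3 := h2.map (MvPolynomial.eval (fun _ => α))
    rw [map_sub, eval_X, eval_C, sub_self] at h3
    exact not_isUnit_zero h3
  · exact h2

end Pool.Agent.PPX.H11
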